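import Pool.Agent.E8helper59.TS.Stm

/-! Piece S_SLICE of project TS (MP_b907b5_co). -/

set_option autoImplicit false
open MeasureTheory Set Filter Topology
open scoped Pointwise ENNReal
open Pool.Agent.E8helper59.TS

namespace Pool.Agent.E8helper44.TS

noncomputable section

lemma exists_pos_mem {V : Type} [NormedAddCommGroup V] [NormedSpace ℝ V] {U : Set V}
    (hU : IsOpen U) {x : V} (hx : x ∈ U) (v : V) : ∃ δ : ℝ, 0 < δ ∧ x + δ • v ∈ U := by
  have hc : Continuous (fun δ : ℝ => x + δ • v) := by fun_prop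
  have h0 : (fun δ : ℝ => x + δ • v) ⁻¹' U ∈ 𝓝 (0 : ℝ) := by
    refine (hU.preimage hc).mem_nhds ?_
    simpa using hx
  have h1 : ∀ᶠ δ in 𝓝[>] (0 : ℝ), x + δ • v ∈ U := nhdsWithin_le_nhds h0
  obtain ⟨δ, h2, h3⟩ := (h1.and self_mem_nhdsWithin).exists
  exact ⟨δ, h3, h2⟩

lemma exists_interior {D : Set (ℝ × ℝ)} (hD : Convex ℝ D) (hi : (interior D).Nonempty)
    (g : (ℝ × ℝ) →L[ℝ] ℝ) {p q : ℝ × ℝ} (hp : p ∈ D) (hq : q ∈ D) {v : ℝ} (h1 : g p < v)
    (h2 : v < g q) : ∃ k ∈ interior D, g k = v := by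
  obtain ⟨x0, hx0⟩ := hi
  rcases lt_trichotomy (g x0) v with h | h | h
  · have hd : 0 < g q - g x0 := by linarith
    set θ := (v - g x0) / (g q - g x0) with hθ
    have hθ0 : 0 ≤ θ := div_nonneg (by linarith) hd.le
    have hθ1 : 0 < 1 - θ := by
      rw [hθ, sub_pos, div_lt_one hd]; linarith
    refine ⟨θ • q + (1 - θ) • x0, hD.combo_self_interior_mem_interior hq hx0 hθ0 hθ1 (by ring), ?_⟩
    simp only [map_add, map_smul, smul_eq_mul]
    have : θ * (g q - g x0) = v - g x0 := by rw [hθ]; field_simp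
    linarith
  · exact ⟨x0, hx0, h⟩
  · have hd : 0 < g x0 - g p := by linarith
    set θ := (g x0 - v) / (g x0 - g p) with hθ
    have hθ0 : 0 ≤ θ := div_nonneg (by linarith) hd.le
    have hθ1 : 0 < 1 - θ := by
      rw [hθ, sub_pos, div_lt_one hd]; linarith
    refine ⟨θ • p + (1 - θ) • x0, hD.combo_self_interior_mem_interior hp hx0 hθ0 hθ1 (by ring), ?_⟩
    simp only [map_add, map_smul, smul_eq_mul]
    have : θ * (g x0 - g p) = g x0 - v := by rw [hθ]; field_simp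
    linarith

lemma cube_mem {m : ℕ} {a z : Fin m → ℝ} (h : ∀ i, a i < z i ∧ z i < a i + 1) :
    z - a ∈ Icc (0 : Fin m → ℝ) 1 := by
  constructor
  · intro i
    have := (h i).1
    simp only [Pi.zero_apply, Pi.sub_apply]
    linarith
  · intro i
    have := (h i).2
    simp only [Pi.one_apply, Pi.sub_apply]
    linarith

lemma mem_int {m : ℕ} {D : Set (ℝ × ℝ)} {r : E m} {z : Fin m → ℝ}
    (h : ∀ i, r.2 i < z i ∧ z i < r.2 i + 1) {k : ℝ × ℝ} (hk : k ∈ interior D) :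
    (r.1 + k, z) ∈ interior ((fun x => r + x) '' Cyl m D) := by
  have hop : IsOpen (interior D ×ˢ (Set.pi univ fun _ : Fin m => Ioo (0 : ℝ) 1)) :=
    isOpen_interior.prod (isOpen_set_pi finite_univ fun i _ => isOpen_Ioo)
  have hop2 : IsOpen ((fun x : E m => r + x) ''
      (interior D ×ˢ (Set.pi univ fun _ : Fin m => Ioo (0 : ℝ) 1))) :=
    (Homeomorph.addLeft r).isOpenMap _ hop
  refine interior_maximal ?_ hop2 ?_
  · refine image_mono ?_
    rintro ⟨p, q⟩ ⟨hp, hq⟩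
    refine ⟨interior_subset hp, ?_, ?_⟩
    · intro i
      exact (hq i (mem_univ i)).1.le
    · intro i
      exact (hq i (mem_univ i)).2.le
  · refine ⟨(k, z - r.2), ⟨hk, ?_⟩, ?_⟩
    · intro i _
      have := h i
      simp only [Pi.sub_apply, mem_Ioo]
      constructor <;> linarith
    · ext <;> simp

lemma core {m : ℕ} {D : Set (ℝ × ℝ)} (hDc : IsCompact D) (hD : Convex ℝ D)
    (hi : (interior D).Nonempty) (f : E m →L[ℝ] ℝ) (c : ℝ) (hf : f ≠ 0) {t s : E m}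
    {z : Fin m → ℝ} (ht : ∀ i, t.2 i < z i ∧ z i < t.2 i + 1)
    (hs : ∀ i, s.2 i < z i ∧ z i < s.2 i + 1) (hft : ∀ x ∈ Cyl m D, f (t + x) ≤ c)
    (hfs : ∀ x ∈ Cyl m D, c ≤ f (s + x)) :
    ∃ (u : (ℝ × ℝ) →L[ℝ] ℝ) (c' : ℝ), (∀ p ∈ Half D, |u p| ≤ 1 / 2) ∧
      (∃ p ∈ Half D, u p = 1 / 2) ∧ u t.1 ≤ c' ∧ c' + 1 ≤ u s.1 ∧
      ∀ r : E m, (∀ i, r.2 i < z i ∧ z i < r.2 i + 1) →
        (∀ y ∈ interior ((fun x => r + x) '' Cyl m D), f y ≠ c) → u r.1 ≤ c' ∨ c' + 1 ≤ u r.1 := by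
  set f1 : (ℝ × ℝ) →L[ℝ] ℝ := f.comp (ContinuousLinearMap.inl ℝ (ℝ × ℝ) (Fin m → ℝ)) with hf1
  set f2 : (Fin m → ℝ) →L[ℝ] ℝ := f.comp (ContinuousLinearMap.inr ℝ (ℝ × ℝ) (Fin m → ℝ)) with hf2
  have hsplit : ∀ p q, f (p, q) = f1 p + f2 q := by
    intro p q
    rw [hf1, hf2]
    simp only [ContinuousLinearMap.comp_apply, ContinuousLinearMap.inl_apply,
      ContinuousLinearMap.inr_apply]
    rw [← map_add]
    simp
  have hDne : D.Nonempty := hi.mono interior_subset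
  have hcyl : ∀ (r : E m), (∀ i, r.2 i < z i ∧ z i < r.2 i + 1) → ∀ k ∈ D,
      (k, z - r.2) ∈ Cyl m D ∧ f (r + (k, z - r.2)) = f1 r.1 + f1 k + f2 z := by
    intro r hr k hk
    refine ⟨⟨hk, cube_mem hr⟩, ?_⟩
    have : r + (k, z - r.2) = (r.1 + k, z) := by ext <;> simp
    rw [this, hsplit, map_add]
  -- the first component does not vanish
  have hf10 : f1 ≠ 0 := by
    intro h0
    have hf20 : f2 ≠ 0 := by
      intro h
      apply hf
      apply ContinuousLinearMap.ext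
      rintro ⟨p, q⟩
      rw [hsplit, h0, h]
      simp
    obtain ⟨e, he⟩ : ∃ e, f2 e ≠ 0 := by
      by_contra hcon
      push Not at hcon
      exact hf20 (by ext i; simpa using hcon _)
    obtain ⟨e', he'⟩ : ∃ e, 0 < f2 e := by
      rcases lt_or_gt_of_ne he with h | h
      · exact ⟨-e, by rw [map_neg]; linarith⟩
      · exact ⟨e, h⟩
    have hop : IsOpen (Set.pi univ fun i : Fin m => Ioo (t.2 i) (t.2 i + 1)) :=
      isOpen_set_pi finite_univ fun i _ => isOpen_Ioo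
    obtain ⟨δ, hδ, hmem⟩ := exists_pos_mem hop (x := z) (fun i _ => ht i) e'
    obtain ⟨k, hk⟩ := hDne
    have h1 : f (t + (k, (z + δ • e') - t.2)) ≤ c := by
      apply hft
      exact ⟨hk, cube_mem fun i => hmem i (mem_univ i)⟩
    have h2 : t + (k, (z + δ • e') - t.2) = (t.1 + k, z + δ • e') := by ext <;> simp
    rw [h2, hsplit, h0] at h1
    have h3 := hfs _ (hcyl s hs k hk).1
    rw [(hcyl s hs k hk).2, h0] at h3
    simp only [zero_apply, map_add, map_smul, smul_eq_mul, zero_add] at h1 h3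
    have := mul_pos hδ he'
    linarith
  obtain ⟨k0, hk0, hmin⟩ := hDc.exists_isMinOn hDne f1.continuous.continuousOn
  obtain ⟨k1, hk1, hmax⟩ := hDc.exists_isMaxOn hDne f1.continuous.continuousOn
  have hmin' : ∀ k ∈ D, f1 k0 ≤ f1 k := fun k hk => hmin hk
  have hmax' : ∀ k ∈ D, f1 k ≤ f1 k1 := fun k hk => hmax hk
  set w := f1 k1 - f1 k0 with hw
  have hw0 : 0 < w := by
    obtain ⟨x0, hx0⟩ := hi
    obtain ⟨e, he⟩ : ∃ e, f1 e ≠ 0 := by
      by_contra hcon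
      push Not at hcon
      exact hf10 (ContinuousLinearMap.ext hcon)
    obtain ⟨δ, hδ, hmem⟩ := exists_pos_mem isOpen_interior hx0 e
    have h1 := hmin' _ (interior_subset hx0)
    have h2 := hmax' _ (interior_subset hx0)
    have h3 := hmin' _ (interior_subset hmem)
    have h4 := hmax' _ (interior_subset hmem)
    rw [map_add, map_smul, smul_eq_mul] at h3 h4
    by_contra hcon
    have h5 : δ * f1 e = 0 := by linarith
    rcases mul_eq_zero.1 h5 with h | h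
    · exact hδ.ne' h
    · exact he h
  refine ⟨w⁻¹ • f1, (c - f2 z - f1 k1) / w, ?_, ?_, ?_, ?_, ?_⟩
  · rintro p ⟨a, ha, b, hb, rfl⟩
    have h1 := hmin' a ha
    have h2 := hmax' a ha
    have h3 := hmin' b hb
    have h4 := hmax' b hb
    have e : (w⁻¹ • f1) ((1 / 2 : ℝ) • (a - b)) = (f1 a - f1 b) / w / 2 := by
      simp only [smul_apply, map_smul, map_sub, smul_eq_mul]
      ring
    have h5 : |f1 a - f1 b| ≤ w := by
      rw [abs_le]
      constructor <;> linarith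
    have h6 : |f1 a - f1 b| / w ≤ 1 := (div_le_one hw0).2 h5
    rw [e, abs_div, abs_div, abs_of_pos hw0, abs_two]
    linarith
  · refine ⟨(1 / 2 : ℝ) • (k1 - k0), ⟨k1, hk1, k0, hk0, rfl⟩, ?_⟩
    have e : (w⁻¹ • f1) ((1 / 2 : ℝ) • (k1 - k0)) = (f1 k1 - f1 k0) / w / 2 := by
      simp only [smul_apply, map_smul, map_sub, smul_eq_mul]
      ring
    rw [e, ← hw, div_self hw0.ne']
  · have h := hft _ (hcyl t ht k1 hk1).1
    rw [(hcyl t ht k1 hk1).2] at h
    simp only [smul_apply, smul_eq_mul]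
    rw [inv_mul_eq_div]
    exact div_le_div_of_nonneg_right (by linarith) hw0.le
  · have h := hfs _ (hcyl s hs k0 hk0).1
    rw [(hcyl s hs k0 hk0).2] at h
    simp only [smul_apply, smul_eq_mul]
    rw [inv_mul_eq_div, div_add_one hw0.ne']
    exact div_le_div_of_nonneg_right (by linarith) hw0.le
  · intro r hr hne
    by_contra hcon
    push Not at hcon
    obtain ⟨h1, h2⟩ := hcon
    simp only [smul_apply, smul_eq_mul] at h1 h2
    rw [inv_mul_eq_div, div_lt_div_iff_of_pos_right hw0] at h1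
    rw [inv_mul_eq_div, div_add_one hw0.ne', div_lt_div_iff_of_pos_right hw0] at h2
    obtain ⟨k, hk, hkv⟩ := exists_interior hD hi f1 hk0 hk1 (v := c - f2 z - f1 r.1)
      (by linarith) (by linarith)
    refine hne _ (mem_int hr hk) ?_
    rw [hsplit, map_add, hkv]
    ring

/-- TS6 -/
theorem t_SLICE : S_SLICE := by
  intro m D T hDc hD hi hT z F hF
  have hc : ∀ t ∈ F, ∀ s ∈ F, t ≠ s → ∃ (u : (ℝ × ℝ) →L[ℝ] ℝ) (c' : ℝ),
      (∀ p ∈ Half D, |u p| ≤ 1 / 2) ∧ (∃ p ∈ Half D, u p = 1 / 2) ∧ u t.1 ≤ c' ∧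
      c' + 1 ≤ u s.1 ∧ ∀ r ∈ F, u r.1 ≤ c' ∨ c' + 1 ≤ u r.1 := by
    intro t ht s hs hts
    obtain ⟨f, c, hf, h1, h2, h3⟩ := hT t (hF t ht).1 s (hF s hs).1 hts
    obtain ⟨u, c', a1, a2, a3, a4, a5⟩ := core hDc hD hi f c hf (hF t ht).2 (hF s hs).2 h1 h2
    exact ⟨u, c', a1, a2, a3, a4, fun r hr => a5 r (hF r hr).2 (h3 r (hF r hr).1)⟩
  constructor
  · intro t' ht' s' hs' hts
    obtain ⟨t, ht, rfl⟩ := Finset.mem_image.1 ht'
    obtain ⟨s, hs, rfl⟩ := Finset.mem_image.1 hs'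
    obtain ⟨u, c', a1, a2, a3, a4, a5⟩ := hc t ht s hs (fun h => hts (by rw [h]))
    refine ⟨u, c', a1, a2, a3, a4, fun r' hr' => ?_⟩
    obtain ⟨r, hr, rfl⟩ := Finset.mem_image.1 hr'
    exact a5 r hr
  · intro t ht s hs hts
    by_contra hne
    obtain ⟨u, c', -, -, a3, a4, -⟩ := hc t ht s hs hne
    rw [hts] at a3
    linarith

end

end Pool.Agent.E8helper44.TS
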